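import Pool.Agent.Helper73.LL.Goals
import Pool.Agent.Helper38.W.Star

/-!
# Packet LL-EVT: words with few bad letters rarely have many fixed points
-/

set_option autoImplicit false

namespace Pool.Agent.Helper69.EVT

open Finset hiding ext
open Equiv hiding ext
open Pool.Agent.Helper15.An Pool.Agent.Helper6.W Pool.Agent.Helper73.LL
open Pool.Agent.Helper38.W (greedy apart_symm card_not_apart sum_w)

variable {n : ℕ}

/-- resampling one coordinate -/
theorem resample {G : Type*} [Fintype G] {T : ℕ} (κ : G → ℝ)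
    (hs : ∑ g, κ g = 1) (a : Fin T) (F : (Fin T → G) → ℝ) :
    ∑ Z : Fin T → G, (∏ t, κ (Z t)) * F Z =
      ∑ Z : Fin T → G, (∏ t, κ (Z t)) * ∑ g, κ g * F (Function.update Z a g) := by
  classical
  have hw : ∀ (Z : Fin T → G) (g : G), (∏ t, κ (Z t)) * κ g =
      (∏ t, κ (Function.update Z a g t)) * κ (Z a) := by
    intro Z g
    rw [← mul_prod_erase univ (fun t => κ (Z t)) (mem_univ a),
      ← mul_prod_erase univ (fun t => κ (Function.update Z a g t)) (mem_univ a)]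
    have h1 : ∏ t ∈ univ.erase a, κ (Function.update Z a g t) = ∏ t ∈ univ.erase a, κ (Z t) := by
      refine prod_congr rfl fun t ht => ?_
      rw [Function.update_of_ne (ne_of_mem_erase ht)]
    rw [h1]
    simp only [Function.update_self]
    ring
  have h1 : ∑ Z : Fin T → G, (∏ t, κ (Z t)) * ∑ g, κ g * F (Function.update Z a g) =
      ∑ x : (Fin T → G) × G, (∏ t, κ (x.1 t)) * κ x.2 * F (Function.update x.1 a x.2) := by
    rw [Fintype.sum_prod_type]
    refine sum_congr rfl fun Z _ => ?_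
    rw [mul_sum]
    refine sum_congr rfl fun g _ => ?_
    ring
  have h2 : ∑ x : (Fin T → G) × G, (∏ t, κ (x.1 t)) * κ x.2 * F (Function.update x.1 a x.2) =
      ∑ x : (Fin T → G) × G, (∏ t, κ (x.1 t)) * κ x.2 * F x.1 := by
    refine Fintype.sum_bijective (fun x : (Fin T → G) × G => (Function.update x.1 a x.2, x.1 a))
      ?_ _ _ ?_
    · refine Function.Involutive.bijective ?_
      rintro ⟨Z, g⟩
      simp only [Function.update_idem, Function.update_self, Function.update_eq_self]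
    · rintro ⟨Z, g⟩
      simp only
      rw [hw Z g]
  rw [h1, h2, Fintype.sum_prod_type]
  refine sum_congr rfl fun Z _ => ?_
  simp only
  rw [← sum_mul, ← mul_sum, hs, mul_one]

/-- independence of one pair of coordinates -/
theorem pair_indep {G : Type*} [Fintype G] {T : ℕ} (κ : G → ℝ)
    (hs : ∑ g, κ g = 1) (a b : Fin T) (hab : a ≠ b) (Q : G → G → ℝ) (H : (Fin T → G) → ℝ)
    (Ha : ∀ Z g, H (Function.update Z a g) = H Z) (Hb : ∀ Z g, H (Function.update Z b g) = H Z) :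
    ∑ Z : Fin T → G, (∏ t, κ (Z t)) * (Q (Z a) (Z b) * H Z) =
      (∑ g, ∑ h, κ g * κ h * Q g h) * ∑ Z : Fin T → G, (∏ t, κ (Z t)) * H Z := by
  classical
  rw [resample κ hs a]
  have h1 : ∀ Z : Fin T → G, ∑ g, κ g * (Q (Function.update Z a g a) (Function.update Z a g b) *
      H (Function.update Z a g)) = (∑ g, κ g * Q g (Z b)) * H Z := by
    intro Z
    rw [sum_mul]
    refine sum_congr rfl fun g _ => ?_
    rw [Ha, Function.update_self, Function.update_of_ne hab.symm]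
    ring
  simp only [h1]
  rw [resample κ hs b]
  have h2 : ∀ Z : Fin T → G, ∑ h, κ h * ((∑ g, κ g * Q g (Function.update Z b h b)) *
      H (Function.update Z b h)) = (∑ g, ∑ h, κ g * κ h * Q g h) * H Z := by
    intro Z
    rw [sum_comm (f := fun g h => κ g * κ h * Q g h), sum_mul]
    refine sum_congr rfl fun h _ => ?_
    rw [Hb, Function.update_self, ← mul_assoc, mul_sum, sum_mul, sum_mul]
    refine sum_congr rfl fun g _ => ?_
    ring
  simp only [h2]
  rw [mul_sum]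
  refine sum_congr rfl fun Z _ => ?_
  ring

theorem ext_update_of_ne {T : ℕ} (Z : Fin T → Perm (Fin n)) (a : Fin T) (g : Perm (Fin n))
    (t : ℕ) (h : t ≠ a) : ext (Function.update Z a g) t = ext Z t := by
  unfold ext
  split_ifs with h1
  · rw [Function.update_of_ne]
    intro h2
    exact h (congrArg Fin.val h2)
  · rfl

/-- the conditions on a set of pairs -/
def Pairs (T : ℕ) (S : Finset (ℕ × ℕ)) : Prop :=
  (∀ s ∈ S, s.1 < T ∧ s.2 < T ∧ s.1 ≠ s.2) ∧
    ∀ s ∈ S, ∀ s' ∈ S, s ≠ s' → s.1 ≠ s'.1 ∧ s.1 ≠ s'.2 ∧ s.2 ≠ s'.1 ∧ s.2 ≠ s'.2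

/-- independence of disjoint pairs -/
theorem pairs_le {T : ℕ} (κ : Perm (Fin n) → ℝ) (hκ : ∀ g, 0 ≤ κ g)
    (hs : ∑ g, κ g = 1) (Q : Perm (Fin n) → Perm (Fin n) → ℝ) (P2 : ℝ)
    (hP : ∑ g, ∑ h, κ g * κ h * Q g h ≤ P2) (hQ : ∀ g h, 0 ≤ Q g h) (S : Finset (ℕ × ℕ)) :
    Pairs T S → ∑ Z : Fin T → Perm (Fin n), (∏ t, κ (Z t)) *
      ∏ s ∈ S, Q (ext Z s.1) (ext Z s.2) ≤ P2 ^ S.card := by
  classical
  have hP0 : 0 ≤ P2 := le_trans (sum_nonneg fun g _ => sum_nonneg fun h _ =>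
    mul_nonneg (mul_nonneg (hκ g) (hκ h)) (hQ g h)) hP
  induction S using Finset.induction_on with
  | empty =>
    intro _
    simp only [prod_empty, mul_one, card_empty, pow_zero]
    rw [sum_w hs]
  | insert s S hsS ih =>
    intro hp
    have hpS : Pairs T S := ⟨fun s' hs' => hp.1 s' (mem_insert_of_mem hs'),
      fun s' hs' s'' hs'' => hp.2 s' (mem_insert_of_mem hs') s'' (mem_insert_of_mem hs'')⟩
    have h1 := ih hpS
    obtain ⟨ha, hb, hab⟩ := hp.1 s (mem_insert_self _ _)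
    have hdis : ∀ s' ∈ S, s'.1 ≠ s.1 ∧ s'.1 ≠ s.2 ∧ s'.2 ≠ s.1 ∧ s'.2 ≠ s.2 := by
      intro s' hs'
      exact hp.2 s' (mem_insert_of_mem hs') s (mem_insert_self _ _)
        (fun h => hsS (h ▸ hs'))
    have h2 : ∑ Z : Fin T → Perm (Fin n), (∏ t, κ (Z t)) *
        ∏ s' ∈ insert s S, Q (ext Z s'.1) (ext Z s'.2) =
        (∑ g, ∑ h, κ g * κ h * Q g h) * ∑ Z : Fin T → Perm (Fin n), (∏ t, κ (Z t)) *
        ∏ s' ∈ S, Q (ext Z s'.1) (ext Z s'.2) := by
      rw [← pair_indep κ hs ⟨s.1, ha⟩ ⟨s.2, hb⟩ (fun h => hab (congrArg Fin.val h)) Q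
        (fun Z => ∏ s' ∈ S, Q (ext Z s'.1) (ext Z s'.2))]
      · refine sum_congr rfl fun Z _ => ?_
        rw [prod_insert hsS]
        have h3 : ext Z s.1 = Z ⟨s.1, ha⟩ := by unfold ext; rw [dif_pos ha]
        have h4 : ext Z s.2 = Z ⟨s.2, hb⟩ := by unfold ext; rw [dif_pos hb]
        rw [h3, h4]
      · intro Z g
        refine prod_congr rfl fun s' hs' => ?_
        rw [ext_update_of_ne _ _ _ _ (hdis s' hs').1, ext_update_of_ne _ _ _ _ (hdis s' hs').2.2.1]
      · intro Z g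
        refine prod_congr rfl fun s' hs' => ?_
        rw [ext_update_of_ne _ _ _ _ (hdis s' hs').2.1, ext_update_of_ne _ _ _ _ (hdis s' hs').2.2.2]
    rw [h2, card_insert_of_notMem hsS, pow_succ, mul_comm (P2 ^ S.card)]
    refine mul_le_mul hP h1 ?_ hP0
    exact sum_nonneg fun Z _ => mul_nonneg (prod_nonneg fun t _ => hκ _)
      (prod_nonneg fun s _ => hQ _ _)

/-- closed points which are not tree-like -/
noncomputable def A1 (y : Perm (Fin n)) (Z : ℕ → Perm (Fin n)) (T : ℕ) : Finset (Fin n) :=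
  open Classical in univ.filter fun p => pos y Z T p = p ∧ ¬ TL (fun t => lab y Z t p) T

/-- closed points which are tree-like -/
noncomputable def A2 (y : Perm (Fin n)) (Z : ℕ → Perm (Fin n)) (T : ℕ) : Finset (Fin n) :=
  open Classical in univ.filter fun p => pos y Z T p = p ∧ TL (fun t => lab y Z t p) T

theorem fixc_le' (y : Perm (Fin n)) (Z : ℕ → Perm (Fin n)) (T : ℕ) :
    fixc (pos y Z T) ≤ (A1 y Z T).card + (A2 y Z T).card := by
  classical
  unfold fixc A1 A2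
  refine (card_le_card ?_).trans (card_union_le _ _)
  intro p hp
  rw [mem_filter] at hp
  by_cases h : TL (fun t => lab y Z t p) T
  · exact mem_union_right _ (mem_filter.2 ⟨mem_univ _, hp.2, h⟩)
  · exact mem_union_left _ (mem_filter.2 ⟨mem_univ _, hp.2, h⟩)

/-- first part: for fixed letters few `y` have many closed points which are not tree-like -/
theorem part1 (H1 : S_CUT) (Z : ℕ → Perm (Fin n)) (N f F : ℕ) (hn : 0 < n) (hF : 0 < F)
    (hfF : 16 * (f * (2 * N) ^ 2) ≤ F) (hfn : 4 * (f * (2 * N)) ≤ n) :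
    (Nat.card {y : Perm (Fin n) // F ≤ 2 * (A1 y Z (2 * N)).card} : ℝ) ≤
      (n.factorial : ℝ) * (8 * (2 * N + 2 : ℝ) ^ 8 / F) ^ f := by
  classical
  set T := 2 * N with hT
  -- double counting
  have hdc : Nat.card {y : Perm (Fin n) // F ≤ 2 * (A1 y Z T).card} * (F : ℝ) ^ f ≤
      4 ^ f * ∑ ps : Fin f → Fin n, (Nat.card {y : Perm (Fin n) // (∀ i, pos y Z T (ps i) = ps i) ∧
        (∀ i j, i ≠ j → Apart y Z T (ps i) (ps j)) ∧
        ∀ i, ¬ TL (fun t => lab y Z t (ps i)) T} : ℝ) := by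
    have h1 : ∀ y : Perm (Fin n), F ≤ 2 * (A1 y Z T).card →
        (F : ℝ) ^ f ≤ 4 ^ f * (Nat.card {ps : Fin f → Fin n // (∀ i, pos y Z T (ps i) = ps i) ∧
        (∀ i j, i ≠ j → Apart y Z T (ps i) (ps j)) ∧
        ∀ i, ¬ TL (fun t => lab y Z t (ps i)) T} : ℝ) := by
      intro y hy
      have h2 := greedy (A1 y Z T) (fun a b => ¬ Apart y Z T a b)
        (fun a b h h' => h (apart_symm h')) (T * T) (card_not_apart y Z T) f
      have h3 : Nat.card {ps : Fin f → Fin n // (∀ i, ps i ∈ A1 y Z T) ∧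
          ∀ i j, i ≠ j → ¬ ¬ Apart y Z T (ps i) (ps j)} ≤
          Nat.card {ps : Fin f → Fin n // (∀ i, pos y Z T (ps i) = ps i) ∧
          (∀ i j, i ≠ j → Apart y Z T (ps i) (ps j)) ∧
          ∀ i, ¬ TL (fun t => lab y Z t (ps i)) T} := by
        refine Nat.card_le_card_of_injective (fun x => ⟨x.1, ?_, ?_, ?_⟩) ?_
        · intro i
          have := x.2.1 i
          unfold A1 at this
          exact (mem_filter.1 this).2.1
        · intro i j hij
          exact not_not.1 (x.2.2 i j hij)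
        · intro i
          have := x.2.1 i
          unfold A1 at this
          exact (mem_filter.1 this).2.2
        · intro x x' h
          have h' := congrArg Subtype.val h
          exact Subtype.ext h'
      have h4 : F ≤ 4 * ((A1 y Z T).card - f * (T * T)) := by
        have : f * (T * T) = f * T ^ 2 := by ring
        omega
      have h5 : (F : ℝ) ≤ 4 * (((A1 y Z T).card - f * (T * T) : ℕ) : ℝ) := by exact_mod_cast h4
      calc (F : ℝ) ^ f ≤ (4 * (((A1 y Z T).card - f * (T * T) : ℕ) : ℝ)) ^ f :=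
            pow_le_pow_left₀ (Nat.cast_nonneg _) h5 f
        _ = 4 ^ f * (((A1 y Z T).card - f * (T * T) : ℕ) : ℝ) ^ f := mul_pow _ _ _
        _ ≤ _ := by
          refine mul_le_mul_of_nonneg_left ?_ (by positivity)
          exact_mod_cast h2.trans h3
    -- swap the order
    have h6 : ∑ ps : Fin f → Fin n, (Nat.card {y : Perm (Fin n) // (∀ i, pos y Z T (ps i) = ps i) ∧
        (∀ i j, i ≠ j → Apart y Z T (ps i) (ps j)) ∧
        ∀ i, ¬ TL (fun t => lab y Z t (ps i)) T} : ℝ) =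
        ∑ y : Perm (Fin n), (Nat.card {ps : Fin f → Fin n // (∀ i, pos y Z T (ps i) = ps i) ∧
        (∀ i j, i ≠ j → Apart y Z T (ps i) (ps j)) ∧
        ∀ i, ¬ TL (fun t => lab y Z t (ps i)) T} : ℝ) := by
      simp only [Nat.card_eq_fintype_card, Fintype.card_subtype, card_filter, Nat.cast_sum]
      exact sum_comm
    rw [h6, mul_sum]
    have h7 : (Nat.card {y : Perm (Fin n) // F ≤ 2 * (A1 y Z T).card} : ℝ) * (F : ℝ) ^ f =
        ∑ y : Perm (Fin n), if F ≤ 2 * (A1 y Z T).card then (F : ℝ) ^ f else 0 := by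
      rw [← sum_filter, sum_const, nsmul_eq_mul, Nat.card_eq_fintype_card, Fintype.card_subtype]
    rw [h7]
    refine sum_le_sum fun y _ => ?_
    split_ifs with h
    · exact h1 y h
    · positivity
  -- the bound on each term
  have hb : ∀ ps : Fin f → Fin n,
      (Nat.card {y : Perm (Fin n) // (∀ i, pos y Z T (ps i) = ps i) ∧
        (∀ i j, i ≠ j → Apart y Z T (ps i) (ps j)) ∧
        ∀ i, ¬ TL (fun t => lab y Z t (ps i)) T} : ℝ) * (n : ℝ) ^ f ≤
      (2 * (2 * N + 2 : ℝ) ^ 8) ^ f * n.factorial := by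
    intro ps
    have h2 := H1 n Z T f ps
    have h3 : n ≤ 2 * (n - f * T) := by omega
    have h4 : (n : ℝ) ^ f ≤ 2 ^ f * (((n - f * T : ℕ) : ℝ)) ^ f := by
      rw [← mul_pow]
      refine pow_le_pow_left₀ (Nat.cast_nonneg _) ?_ f
      exact_mod_cast h3
    set c := Nat.card {y : Perm (Fin n) // (∀ i, pos y Z T (ps i) = ps i) ∧
        (∀ i j, i ≠ j → Apart y Z T (ps i) (ps j)) ∧
        ∀ i, ¬ TL (fun t => lab y Z t (ps i)) T} with hc
    have h5 : (c : ℝ) * (((n - f * T : ℕ) : ℝ)) ^ f ≤ (((T : ℝ) + 2) ^ 8) ^ f * n.factorial := by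
      exact_mod_cast h2
    calc (c : ℝ) * (n : ℝ) ^ f ≤ c * (2 ^ f * (((n - f * T : ℕ) : ℝ)) ^ f) :=
          mul_le_mul_of_nonneg_left h4 (Nat.cast_nonneg _)
      _ = 2 ^ f * (c * (((n - f * T : ℕ) : ℝ)) ^ f) := by ring
      _ ≤ 2 ^ f * ((((T : ℝ) + 2) ^ 8) ^ f * n.factorial) :=
          mul_le_mul_of_nonneg_left h5 (by positivity)
      _ = (2 * (2 * N + 2 : ℝ) ^ 8) ^ f * n.factorial := by
        rw [hT]
        push_cast
        rw [← mul_assoc, ← mul_pow]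
  have hsum : (∑ ps : Fin f → Fin n,
      (Nat.card {y : Perm (Fin n) // (∀ i, pos y Z T (ps i) = ps i) ∧
        (∀ i j, i ≠ j → Apart y Z T (ps i) (ps j)) ∧
        ∀ i, ¬ TL (fun t => lab y Z t (ps i)) T} : ℝ)) ≤
      (2 * (2 * N + 2 : ℝ) ^ 8) ^ f * n.factorial := by
    have hnf : (0 : ℝ) < (n : ℝ) ^ f := by positivity
    have h8 : (∑ ps : Fin f → Fin n,
      (Nat.card {y : Perm (Fin n) // (∀ i, pos y Z T (ps i) = ps i) ∧
        (∀ i j, i ≠ j → Apart y Z T (ps i) (ps j)) ∧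
        ∀ i, ¬ TL (fun t => lab y Z t (ps i)) T} : ℝ)) * (n : ℝ) ^ f ≤
        ((2 * (2 * N + 2 : ℝ) ^ 8) ^ f * n.factorial) * (n : ℝ) ^ f := by
      rw [sum_mul]
      calc _ ≤ ∑ _ps : Fin f → Fin n, (2 * (2 * N + 2 : ℝ) ^ 8) ^ f * n.factorial :=
            sum_le_sum fun ps _ => hb ps
        _ = _ := by
          rw [sum_const, card_univ, nsmul_eq_mul, Fintype.card_fun, Fintype.card_fin,
            Fintype.card_fin]
          push_cast
          ring
    exact le_of_mul_le_mul_right h8 hnf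
  have hFf : (0 : ℝ) < (F : ℝ) ^ f := by
    have : (0 : ℝ) < F := by exact_mod_cast hF
    positivity
  have h9 : (Nat.card {y : Perm (Fin n) // F ≤ 2 * (A1 y Z T).card} : ℝ) * (F : ℝ) ^ f ≤
      (n.factorial : ℝ) * (8 * (2 * N + 2 : ℝ) ^ 8 / F) ^ f * (F : ℝ) ^ f := by
    refine hdc.trans ?_
    calc _ ≤ (4 : ℝ) ^ f * ((2 * (2 * N + 2 : ℝ) ^ 8) ^ f * n.factorial) :=
          mul_le_mul_of_nonneg_left hsum (by positivity)
      _ = (n.factorial : ℝ) * (8 * (2 * N + 2 : ℝ) ^ 8 / F) ^ f * (F : ℝ) ^ f := by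
        have hF' : (F : ℝ) ≠ 0 := by
          have : (0 : ℝ) < F := by exact_mod_cast hF
          exact this.ne'
        rw [mul_assoc (n.factorial : ℝ), ← mul_pow, div_mul_cancel₀ _ hF', ← mul_assoc, ← mul_pow]
        ring
  exact le_of_mul_le_mul_right h9 hFf

/-- many tree-like closed points and few bad letters give many bad disjoint pairs -/
theorem exists_pairs (H2 : S_TLP) (y : Perm (Fin n)) {N q F F'' : ℕ} (hN : 0 < N)
    (Z : Fin (2 * N) → Perm (Fin n)) (hF : 0 < F)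
    (h8 : 8 * ((2 * N + 1) ^ 2 * F'') ≤ F) (hbad : nbad Z F'' ≤ q)
    (hA : F ≤ 2 * (A2 y (ext Z) (2 * N)).card) :
    ∃ S : Finset (ℕ × ℕ), S ⊆ range (2 * N) ×ˢ range (2 * N) ∧ S.card = N - 2 * q ∧
      Pairs (2 * N) S ∧ ∀ s ∈ S, F'' ≤ fixc (ext Z s.2 * ext Z s.1) := by
  classical
  -- the exceptional points
  set B1 : Finset (Fin n) := ((range (2 * N)).filter fun t => fixc (ext Z t) < F'').biUnion
    fun t => univ.filter fun p => ext Z t (arr y (ext Z) t p) = arr y (ext Z) t p with hB1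
  set B2 : Finset (Fin n) := ((range (2 * N) ×ˢ range (2 * N)).filter
    fun s => fixc (ext Z s.2 * ext Z s.1) < F'').biUnion
    fun s => univ.filter fun p => ext Z s.2 (ext Z s.1 (arr y (ext Z) s.1 p)) =
      arr y (ext Z) s.1 p with hB2
  have hc : ∀ (g a : Perm (Fin n)), (univ.filter fun p => g (a p) = a p).card = fixc g := by
    intro g a
    unfold fixc
    refine card_bij (fun p _ => a p) ?_ ?_ ?_
    · intro p hp
      exact mem_filter.2 ⟨mem_univ _, (mem_filter.1 hp).2⟩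
    · intro p _ p' _ h
      exact a.injective h
    · intro x hx
      exact ⟨a⁻¹ x, mem_filter.2 ⟨mem_univ _, by simpa using (mem_filter.1 hx).2⟩, by simp⟩
  have h1 : B1.card ≤ 2 * N * F'' := by
    refine card_biUnion_le.trans ?_
    refine (sum_le_card_nsmul _ _ F'' ?_).trans ?_
    · intro t ht
      rw [hc]
      exact (mem_filter.1 ht).2.le
    · rw [smul_eq_mul]
      exact Nat.mul_le_mul_right _ ((card_filter_le _ _).trans (by simp))
  have h2 : B2.card ≤ 2 * N * (2 * N) * F'' := by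
    refine card_biUnion_le.trans ?_
    refine (sum_le_card_nsmul _ _ F'' ?_).trans ?_
    · intro s hs
      have := hc (ext Z s.2 * ext Z s.1) (arr y (ext Z) s.1)
      simp only [Perm.mul_apply] at this
      exact this.trans_le (mem_filter.1 hs).2.le
    · rw [smul_eq_mul]
      exact Nat.mul_le_mul_right _ ((card_filter_le _ _).trans (by simp))
  have h3 : (B1 ∪ B2).card < (A2 y (ext Z) (2 * N)).card := by
    refine lt_of_le_of_lt (card_union_le _ _) ?_
    rcases Nat.eq_zero_or_pos F'' with h0 | h0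
    · rw [h0, Nat.mul_zero] at h1 h2
      omega
    · have h4 : 2 * N * F'' + 2 * N * (2 * N) * F'' < (2 * N + 1) ^ 2 * F'' := by nlinarith
      have h5 : 8 * ((2 * N + 1) ^ 2 * F'') ≤ 2 * (A2 y (ext Z) (2 * N)).card := h8.trans hA
      omega
  obtain ⟨p, hpA, hpB⟩ := exists_mem_notMem_of_card_lt_card h3
  rw [mem_union, not_or] at hpB
  unfold A2 at hpA
  obtain ⟨_, hcl, htl⟩ := mem_filter.1 hpA
  obtain ⟨S₁, S₂, ha, hb, hd, hcard⟩ := H2 n y (ext Z) N p hN hcl htl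
  have hS1 : S₁.card ≤ q := by
    refine le_trans ?_ hbad
    unfold nbad
    refine card_le_card_of_injOn (fun t => if h : t < 2 * N then (⟨t, h⟩ : Fin (2 * N)) else
      ⟨0, by omega⟩) ?_ ?_
    · intro t ht
      obtain ⟨ht1, ht2⟩ := ha t ht
      simp only [dif_pos ht1, coe_filter, mem_univ, true_and, Set.mem_ofPred_eq]
      by_contra hlt
      push Not at hlt
      refine hpB.1 (mem_biUnion.2 ⟨t, mem_filter.2 ⟨mem_range.2 ht1, ?_⟩,
        mem_filter.2 ⟨mem_univ _, ht2⟩⟩)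
      unfold ext
      rw [dif_pos ht1]
      exact hlt
    · intro t ht t' ht' h
      simp only [dif_pos (ha t ht).1, dif_pos (ha t' ht').1] at h
      exact congrArg Fin.val h
  have hS2 : N - 2 * q ≤ S₂.card := by omega
  obtain ⟨S, hSS, hSc⟩ := exists_subset_card_eq hS2
  refine ⟨S, ?_, hSc, ⟨?_, ?_⟩, ?_⟩
  · intro s hs
    obtain ⟨h4, h5, _⟩ := hb s (hSS hs)
    exact mem_product.2 ⟨mem_range.2 (h4.trans h5), mem_range.2 h5⟩
  · intro s hs
    obtain ⟨h4, h5, _⟩ := hb s (hSS hs)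
    exact ⟨h4.trans h5, h5, h4.ne⟩
  · intro s hs s' hs'
    exact hd s (hSS hs) s' (hSS hs')
  · intro s hs
    obtain ⟨h4, h5, h6⟩ := hb s (hSS hs)
    by_contra hlt
    push Not at hlt
    exact hpB.2 (mem_biUnion.2 ⟨s, mem_filter.2 ⟨mem_product.2 ⟨mem_range.2 (h4.trans h5),
      mem_range.2 h5⟩, hlt⟩, mem_filter.2 ⟨mem_univ _, h6⟩⟩)

/-- second part: for fixed `y` the letters rarely produce many tree-like closed points -/
theorem part2 (H2 : S_TLP) {N q F F'' : ℕ} {κ : Perm (Fin n) → ℝ} (hκ : ∀ g, 0 ≤ κ g)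
    (hs : ∑ g, κ g = 1) (P2 : ℝ) (hP0 : 0 ≤ P2)
    (hP : ∑ g : Perm (Fin n), ∑ h : Perm (Fin n),
      κ g * κ h * (if F'' ≤ fixc (h * g) then (1 : ℝ) else 0) ≤ P2)
    (y : Perm (Fin n)) (hN : 0 < N) (hF : 0 < F) (h8 : 8 * ((2 * N + 1) ^ 2 * F'') ≤ F) :
    ∑ Z : Fin (2 * N) → Perm (Fin n), (∏ t, κ (Z t)) *
        (if F ≤ 2 * (A2 y (ext Z) (2 * N)).card ∧ nbad Z F'' ≤ q then (1 : ℝ) else 0) ≤
      (((2 * N : ℝ) ^ 2) * P2) ^ (N - 2 * q) := by
  classical
  obtain ⟨PP, hPP⟩ : ∃ PP : Finset (Finset (ℕ × ℕ)), PP =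
    (powersetCard (N - 2 * q) (range (2 * N) ×ˢ range (2 * N))).filter fun S => Pairs (2 * N) S :=
    ⟨_, rfl⟩
  have hPP' : ∀ S, S ∈ PP ↔ (S ⊆ range (2 * N) ×ˢ range (2 * N) ∧ S.card = N - 2 * q) ∧
      Pairs (2 * N) S := by
    intro S
    rw [hPP, mem_filter, mem_powersetCard]
  have hPPc : PP.card ≤ (2 * N * (2 * N)) ^ (N - 2 * q) := by
    rw [hPP]
    refine (card_filter_le _ _).trans ?_
    rw [card_powersetCard, card_product, card_range]
    exact Nat.choose_le_pow _ _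
  obtain ⟨Q, hQ⟩ : ∃ Q : Perm (Fin n) → Perm (Fin n) → ℝ,
      Q = fun g h => if F'' ≤ fixc (h * g) then 1 else 0 := ⟨_, rfl⟩
  have hQ0 : ∀ g h, 0 ≤ Q g h := by
    intro g h
    rw [hQ]
    simp only
    split_ifs <;> norm_num
  have hPQ : ∑ g : Perm (Fin n), ∑ h : Perm (Fin n), κ g * κ h * Q g h ≤ P2 := by
    rw [hQ]
    exact hP
  have h1 : ∀ Z : Fin (2 * N) → Perm (Fin n),
      (if F ≤ 2 * (A2 y (ext Z) (2 * N)).card ∧ nbad Z F'' ≤ q then (1 : ℝ) else 0) ≤
      ∑ S ∈ PP, ∏ s ∈ S, Q (ext Z s.1) (ext Z s.2) := by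
    intro Z
    have hnn : ∀ S : Finset (ℕ × ℕ), 0 ≤ ∏ s ∈ S, Q (ext Z s.1) (ext Z s.2) :=
      fun S => prod_nonneg fun s _ => hQ0 _ _
    split_ifs with h
    · obtain ⟨S, h2, h3, h4, h5⟩ := exists_pairs H2 y hN Z hF h8 h.2 h.1
      have h6 : S ∈ PP := (hPP' S).2 ⟨⟨h2, h3⟩, h4⟩
      have h7 : ∏ s ∈ S, Q (ext Z s.1) (ext Z s.2) = 1 := by
        refine prod_eq_one fun s hs => ?_
        rw [hQ]
        simp only
        rw [if_pos (h5 s hs)]
      rw [← h7]
      exact single_le_sum (f := fun S => ∏ s ∈ S, Q (ext Z s.1) (ext Z s.2))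
        (fun S _ => hnn S) h6
    · exact sum_nonneg fun S _ => hnn S
  have hw : ∀ Z : Fin (2 * N) → Perm (Fin n), 0 ≤ ∏ t, κ (Z t) := fun Z => prod_nonneg fun t _ => hκ _
  calc _ ≤ ∑ Z : Fin (2 * N) → Perm (Fin n), (∏ t, κ (Z t)) *
        ∑ S ∈ PP, ∏ s ∈ S, Q (ext Z s.1) (ext Z s.2) :=
        sum_le_sum fun Z _ => mul_le_mul_of_nonneg_left (h1 Z) (hw Z)
    _ = ∑ S ∈ PP, ∑ Z : Fin (2 * N) → Perm (Fin n), (∏ t, κ (Z t)) *
        ∏ s ∈ S, Q (ext Z s.1) (ext Z s.2) := by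
        simp only [mul_sum]
        exact sum_comm
    _ ≤ ∑ S ∈ PP, P2 ^ (N - 2 * q) := by
        refine sum_le_sum fun S hS => ?_
        have h2 := (hPP' S).1 hS
        have h3 := pairs_le κ hκ hs Q P2 hPQ hQ0 S h2.2
        rw [h2.1.2] at h3
        exact h3
    _ = (PP.card : ℝ) * P2 ^ (N - 2 * q) := by rw [sum_const, nsmul_eq_mul]
    _ ≤ (((2 * N * (2 * N) : ℕ) : ℝ)) ^ (N - 2 * q) * P2 ^ (N - 2 * q) := by
        refine mul_le_mul_of_nonneg_right ?_ (pow_nonneg hP0 _)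
        exact_mod_cast hPPc
    _ = _ := by
        rw [← mul_pow]
        push_cast
        ring

/-- Packet LL-EVT. -/
theorem evt (H1 : S_CUT) (H2 : S_TLP) : S_EVT := by
  intro n N q F' F'' f κ P2 hN hq hF hfF hfn h8 hκ hs hP0 hP
  classical
  rcases Nat.eq_zero_or_pos n with hn | hn
  · have hz : ∀ (y : Perm (Fin n)) (Z : Fin (2 * N) → Perm (Fin n)),
        ¬ (F' ≤ fixc (pos y (ext Z) (2 * N)) ∧ nbad Z F'' ≤ q) := by
      intro y Z h
      have : fixc (pos y (ext Z) (2 * N)) ≤ n := by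
        unfold fixc
        exact (card_le_univ _).trans (by simp)
      have := h.1
      omega
    have : ∑ y : Perm (Fin n), ∑ Z : Fin (2 * N) → Perm (Fin n), (∏ t, κ (Z t)) *
        (if F' ≤ fixc (pos y (ext Z) (2 * N)) ∧ nbad Z F'' ≤ q then (1 : ℝ) else 0) = 0 := by
      refine sum_eq_zero fun y _ => sum_eq_zero fun Z _ => ?_
      rw [if_neg (hz y Z), mul_zero]
    rw [this]
    positivity
  have hw : ∀ Z : Fin (2 * N) → Perm (Fin n), 0 ≤ ∏ t, κ (Z t) :=
    fun Z => prod_nonneg fun t _ => hκ _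
  -- pointwise
  have hpt : ∀ (y : Perm (Fin n)) (Z : Fin (2 * N) → Perm (Fin n)), (∏ t, κ (Z t)) *
        (if F' ≤ fixc (pos y (ext Z) (2 * N)) ∧ nbad Z F'' ≤ q then (1 : ℝ) else 0) ≤
      (∏ t, κ (Z t)) * (if F' ≤ 2 * (A1 y (ext Z) (2 * N)).card then (1 : ℝ) else 0) +
      (∏ t, κ (Z t)) * (if F' ≤ 2 * (A2 y (ext Z) (2 * N)).card ∧ nbad Z F'' ≤ q
        then (1 : ℝ) else 0) := by
    intro y Z
    rw [← mul_add]
    refine mul_le_mul_of_nonneg_left ?_ (hw Z)
    have h3 := fixc_le' y (ext Z) (2 * N)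
    by_cases h : F' ≤ fixc (pos y (ext Z) (2 * N)) ∧ nbad Z F'' ≤ q
    · rw [if_pos h]
      by_cases h4 : F' ≤ 2 * (A1 y (ext Z) (2 * N)).card
      · rw [if_pos h4]
        split_ifs <;> norm_num
      · have h5 : F' ≤ 2 * (A2 y (ext Z) (2 * N)).card := by
          have := h.1
          omega
        rw [if_neg h4, if_pos ⟨h5, h.2⟩]
        norm_num
    · rw [if_neg h]
      split_ifs <;> norm_num
  have hA : ∑ y : Perm (Fin n), ∑ Z : Fin (2 * N) → Perm (Fin n), (∏ t, κ (Z t)) *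
      (if F' ≤ 2 * (A1 y (ext Z) (2 * N)).card then (1 : ℝ) else 0) ≤
      (n.factorial : ℝ) * (8 * (2 * N + 2 : ℝ) ^ 8 / F') ^ f := by
    rw [sum_comm]
    calc _ = ∑ Z : Fin (2 * N) → Perm (Fin n), (∏ t, κ (Z t)) *
          (Nat.card {y : Perm (Fin n) // F' ≤ 2 * (A1 y (ext Z) (2 * N)).card} : ℝ) := by
          refine sum_congr rfl fun Z _ => ?_
          rw [← mul_sum, Nat.card_eq_fintype_card, Fintype.card_subtype, card_filter,
            Nat.cast_sum]
          congr 1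
          refine sum_congr rfl fun y _ => ?_
          split_ifs <;> simp
      _ ≤ ∑ Z : Fin (2 * N) → Perm (Fin n), (∏ t, κ (Z t)) *
          ((n.factorial : ℝ) * (8 * (2 * N + 2 : ℝ) ^ 8 / F') ^ f) := by
          refine sum_le_sum fun Z _ => mul_le_mul_of_nonneg_left ?_ (hw Z)
          exact part1 H1 (ext Z) N f F' hn hF hfF hfn
      _ = _ := by rw [← sum_mul, sum_w hs, one_mul]
  have hB : ∑ y : Perm (Fin n), ∑ Z : Fin (2 * N) → Perm (Fin n), (∏ t, κ (Z t)) *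
      (if F' ≤ 2 * (A2 y (ext Z) (2 * N)).card ∧ nbad Z F'' ≤ q then (1 : ℝ) else 0) ≤
      (n.factorial : ℝ) * (((2 * N : ℝ) ^ 2) * P2) ^ (N - 2 * q) := by
    calc _ ≤ ∑ _y : Perm (Fin n), (((2 * N : ℝ) ^ 2) * P2) ^ (N - 2 * q) := by
          refine sum_le_sum fun y _ => ?_
          exact part2 H2 hκ hs P2 hP0 hP y hN hF h8
      _ = _ := by
        rw [sum_const, card_univ, nsmul_eq_mul, Fintype.card_perm, Fintype.card_fin]
  calc _ ≤ ∑ y : Perm (Fin n), ∑ Z : Fin (2 * N) → Perm (Fin n),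
        ((∏ t, κ (Z t)) * (if F' ≤ 2 * (A1 y (ext Z) (2 * N)).card then (1 : ℝ) else 0) +
        (∏ t, κ (Z t)) * (if F' ≤ 2 * (A2 y (ext Z) (2 * N)).card ∧ nbad Z F'' ≤ q
          then (1 : ℝ) else 0)) :=
        sum_le_sum fun y _ => sum_le_sum fun Z _ => hpt y Z
    _ = ∑ y : Perm (Fin n), ∑ Z : Fin (2 * N) → Perm (Fin n), (∏ t, κ (Z t)) *
        (if F' ≤ 2 * (A1 y (ext Z) (2 * N)).card then (1 : ℝ) else 0) +
        ∑ y : Perm (Fin n), ∑ Z : Fin (2 * N) → Perm (Fin n), (∏ t, κ (Z t)) *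
        (if F' ≤ 2 * (A2 y (ext Z) (2 * N)).card ∧ nbad Z F'' ≤ q then (1 : ℝ) else 0) := by
        rw [← sum_add_distrib]
        refine sum_congr rfl fun y _ => ?_
        rw [← sum_add_distrib]
    _ ≤ (n.factorial : ℝ) * (8 * (2 * N + 2 : ℝ) ^ 8 / F') ^ f +
        (n.factorial : ℝ) * (((2 * N : ℝ) ^ 2) * P2) ^ (N - 2 * q) := add_le_add hA hB
    _ = _ := by ring

end Pool.Agent.Helper69.EVT
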